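import Mathlib
import Pool.Agent.Lib_helper10.LogRank.Defs

set_option autoImplicit false
set_option linter.unusedSectionVars false

/-! Ranks of submatrices of a Boolean matrix over a field. -/

namespace Pool.Agent.Lib_helper66.LogRank

open Finset Module

variable (K : Type*) [Field K] {X Y : Type*}

/-- the row of `x` restricted to the columns in `B` -/
def row (F : X → Y → Bool) (B : Finset Y) (x : X) : (B → K) :=
  fun y => if F x y then 1 else 0

/-- the row space of the submatrix -/
def rowSpace (F : X → Y → Bool) (A : Finset X) (B : Finset Y) : Submodule K (B → K) :=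
  Submodule.span K (row K F B '' (A : Set X))

/-- rank of the submatrix with rows `A` and columns `B` -/
noncomputable def rk (F : X → Y → Bool) (A : Finset X) (B : Finset Y) : ℕ :=
  finrank K (rowSpace K F A B)

variable {K}

theorem rk_mono_left (F : X → Y → Bool) {A A' : Finset X} (B : Finset Y) (h : A' ⊆ A) :
    rk K F A' B ≤ rk K F A B :=
  Submodule.finrank_mono (Submodule.span_mono (Set.image_mono (by exact_mod_cast h)))

/-- restriction of columns -/
def resB {B B' : Finset Y} (h : B' ⊆ B) : (B → K) →ₗ[K] (B' → K) where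
  toFun v y := v ⟨y, h y.2⟩
  map_add' _ _ := rfl
  map_smul' _ _ := rfl

theorem resB_row (F : X → Y → Bool) {B B' : Finset Y} (h : B' ⊆ B) (x : X) :
    resB h (row K F B x) = row K F B' x := rfl

theorem rowSpace_map (F : X → Y → Bool) (A : Finset X) {B B' : Finset Y} (h : B' ⊆ B) :
    (rowSpace K F A B).map (resB h) = rowSpace K F A B' := by
  rw [rowSpace, Submodule.map_span, rowSpace, Set.image_image]
  rfl

theorem rk_mono_right (F : X → Y → Bool) (A : Finset X) {B B' : Finset Y} (h : B' ⊆ B) :
    rk K F A B' ≤ rk K F A B := by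
  rw [rk, ← rowSpace_map F A h]
  exact Submodule.finrank_map_le _ _

/-- A monochromatic rectangle halves the rank. -/
theorem rk_mono_rect (F : X → Y → Bool) {A A' : Finset X} {B B' : Finset Y} (hA : A' ⊆ A)
    (hB : B' ⊆ B) (v : Bool) (hv : ∀ x ∈ A', ∀ y ∈ B', F x y = v) :
    rk K F A' B + rk K F A B' ≤ rk K F A B + 1 := by
  classical
  rcases A'.eq_empty_or_nonempty with rfl | ⟨x₀, hx₀⟩
  · have h0 : rk K F (∅ : Finset X) B = 0 := by
      rw [rk, rowSpace, Finset.coe_empty, Set.image_empty, Submodule.span_empty, finrank_bot]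
    rw [h0, zero_add]
    exact (rk_mono_right F A hB).trans (Nat.le_succ _)
  set V := rowSpace K F A B with hV
  have hmem : ∀ x ∈ A, row K F B x ∈ V := fun x hx =>
    Submodule.subset_span ⟨x, by exact_mod_cast hx, rfl⟩
  let φ : V →ₗ[K] (B' → K) := (resB hB).comp V.subtype
  have hrange : LinearMap.range φ = rowSpace K F A B' := by
    rw [← rowSpace_map F A hB]
    ext w
    simp only [LinearMap.mem_range, Submodule.mem_map, φ, LinearMap.comp_apply,
      Submodule.subtype_apply, Subtype.exists, exists_prop]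
    exact Iff.rfl
  have hrn := LinearMap.finrank_range_add_finrank_ker φ
  rw [hrange] at hrn
  -- the row space of A' is contained in ker + span of row x₀
  have hker : rk K F A' B ≤ finrank K (LinearMap.ker φ) + 1 := by
    let W : Submodule K (B → K) := (LinearMap.ker φ).map V.subtype ⊔ K ∙ (row K F B x₀)
    have h1 : rowSpace K F A' B ≤ W := by
      rw [rowSpace, Submodule.span_le]
      rintro _ ⟨x, hx, rfl⟩
      have hx' : x ∈ A' := by exact_mod_cast hx
      have hd : row K F B x - row K F B x₀ ∈ (LinearMap.ker φ).map V.subtype := by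
        refine ⟨⟨row K F B x - row K F B x₀, V.sub_mem (hmem x (hA hx')) (hmem x₀ (hA hx₀))⟩,
          ?_, rfl⟩
        simp only [SetLike.mem_coe, LinearMap.mem_ker]
        ext y
        simp only [φ, LinearMap.comp_apply, Submodule.subtype_apply, map_sub, resB_row,
          Pi.sub_apply, Pi.zero_apply, row]
        rw [hv x hx' y y.2, hv x₀ hx₀ y y.2, sub_self]
      have h2 : row K F B x = (row K F B x - row K F B x₀) + row K F B x₀ := by abel
      rw [h2]
      exact Submodule.add_mem_sup hd (Submodule.mem_span_singleton_self _)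
    have h3 : rk K F A' B ≤ finrank K W := Submodule.finrank_mono h1
    have h4 : finrank K W ≤ finrank K ((LinearMap.ker φ).map V.subtype) +
        finrank K (K ∙ (row K F B x₀)) := Submodule.finrank_add_le_finrank_add_finrank _ _
    have h5 : finrank K ((LinearMap.ker φ).map V.subtype) ≤ finrank K (LinearMap.ker φ) :=
      Submodule.finrank_map_le _ _
    have h6 : finrank K (K ∙ (row K F B x₀)) ≤ 1 := by
      refine (finrank_span_le_card ({row K F B x₀} : Set (B → K))).trans ?_
      simp
    omega
  have h7 : finrank K V = rk K F A B := rfl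
  have h8 : finrank K (rowSpace K F A B') = rk K F A B' := rfl
  omega

/-- a small set of rows spanning all rows -/
theorem exists_spanning_rows (F : X → Y → Bool) (A : Finset X) (B : Finset Y) :
    ∃ S : Finset X, S ⊆ A ∧ S.card ≤ rk K F A B ∧
      ∀ x ∈ A, row K F B x ∈ Submodule.span K (row K F B '' (S : Set X)) := by
  classical
  obtain ⟨b, hb1, hb2, hb3⟩ := exists_linearIndependent K (row K F B '' (A : Set X))
  have hfin : b.Finite := (A.finite_toSet.image _).subset hb1
  have hch : ∀ w ∈ b, ∃ x ∈ A, row K F B x = w := by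
    intro w hw
    obtain ⟨x, hx, rfl⟩ := hb1 hw
    exact ⟨x, by exact_mod_cast hx, rfl⟩
  choose g hg1 hg2 using hch
  refine ⟨hfin.toFinset.attach.image (fun w => g w.1 (hfin.mem_toFinset.1 w.2)), ?_, ?_, ?_⟩
  · intro x hx
    obtain ⟨w, -, rfl⟩ := Finset.mem_image.1 hx
    exact hg1 w.1 (hfin.mem_toFinset.1 w.2)
  · refine Finset.card_image_le.trans ?_
    rw [Finset.card_attach]
    have hcard : finrank K (Submodule.span K b) = hfin.toFinset.card := by
      haveI : Fintype b := hfin.fintype
      rw [finrank_span_set_eq_card hb3]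
      congr 1
      ext w
      simp
    rw [rk, rowSpace, ← hb2, hcard]
  · intro x hx
    have h1 : row K F B x ∈ Submodule.span K b := by
      rw [hb2]
      exact Submodule.subset_span ⟨x, by exact_mod_cast hx, rfl⟩
    refine Submodule.span_mono ?_ h1
    intro w hw
    refine ⟨g w hw, ?_, hg2 w hw⟩
    simp only [coe_image]
    exact ⟨⟨w, hfin.mem_toFinset.2 hw⟩, by simp, rfl⟩

/-- transposed submatrices have the same rank -/
theorem rk_transpose (F : X → Y → Bool) (A : Finset X) (B : Finset Y) :
    rk K (fun y x => F x y) B A = rk K F A B := by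
  classical
  let M : Matrix A B K := Matrix.of fun x y => if F x y then 1 else 0
  have h1 : M.rank = rk K F A B := by
    rw [Matrix.rank_eq_finrank_span_row, rk, rowSpace]
    have : Set.range M.row = row K F B '' (A : Set X) := by
      ext v
      simp only [Set.mem_range, Set.mem_image, Subtype.exists, mem_coe]
      exact ⟨fun ⟨a, ha, h⟩ => ⟨a, ha, h⟩, fun ⟨a, ha, h⟩ => ⟨a, ha, h⟩⟩
    rw [this]
  have h2 : M.transpose.rank = rk K (fun y x => F x y) B A := by
    rw [Matrix.rank_eq_finrank_span_row, rk, rowSpace]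
    have : Set.range M.transpose.row = row K (fun y x => F x y) A '' (B : Set Y) := by
      ext v
      simp only [Set.mem_range, Set.mem_image, Subtype.exists, mem_coe]
      exact ⟨fun ⟨a, ha, h⟩ => ⟨a, ha, h⟩, fun ⟨a, ha, h⟩ => ⟨a, ha, h⟩⟩
    rw [this]
  rw [← h1, ← h2, Matrix.rank_transpose]

theorem rk_univ [Fintype X] [Fintype Y] (F : X → Y → Bool) :
    rk K F univ univ = (Matrix.of fun (x : X) (y : Y) => if F x y then (1 : K) else 0).rank := by
  classical
  set M : Matrix X Y K := Matrix.of fun x y => if F x y then 1 else 0 with hM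
  let e1 : ↥(univ : Finset X) ≃ X := Equiv.subtypeUnivEquiv (by simp)
  let e2 : ↥(univ : Finset Y) ≃ Y := Equiv.subtypeUnivEquiv (by simp)
  have h1 : (M.submatrix e1 e2).rank = rk K F univ univ := by
    rw [Matrix.rank_eq_finrank_span_row, rk, rowSpace]
    have : Set.range (M.submatrix e1 e2).row =
        row K F univ '' ((univ : Finset X) : Set X) := by
      ext v
      simp only [Set.mem_range, Set.mem_image, Subtype.exists, mem_coe]
      exact ⟨fun ⟨a, ha, h⟩ => ⟨a, ha, h⟩, fun ⟨a, ha, h⟩ => ⟨a, ha, h⟩⟩
    rw [this]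
  rw [← h1, Matrix.rank_submatrix]

/-- Few distinct rows: there is a set of representatives of size at most `2 ^ rk`. -/
theorem exists_reps (F : X → Y → Bool) (A : Finset X) (B : Finset Y) :
    ∃ A₀ : Finset X, A₀ ⊆ A ∧ A₀.card ≤ 2 ^ rk K F A B ∧
      ∃ g : X → X, ∀ x ∈ A, g x ∈ A₀ ∧ ∀ y ∈ B, F (g x) y = F x y := by
  classical
  obtain ⟨S, hSB, hScard, hS⟩ := exists_spanning_rows (K := K) (fun y x => F x y) B A
  rw [rk_transpose] at hScard
  -- the pattern on S determines the row
  have hdet : ∀ x ∈ A, ∀ x' ∈ A, (∀ y ∈ S, F x y = F x' y) → ∀ y ∈ B, F x y = F x' y := by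
    intro x hx x' hx' h y hy
    let ev : (A → K) →ₗ[K] K :=
      (LinearMap.proj (⟨x, hx⟩ : A) : (A → K) →ₗ[K] K) - LinearMap.proj (⟨x', hx'⟩ : A)
    have h1 : Submodule.span K (row K (fun y x => F x y) A '' (S : Set Y)) ≤
        LinearMap.ker ev := by
      rw [Submodule.span_le]
      rintro _ ⟨z, hz, rfl⟩
      have hz' := h z (by exact_mod_cast hz)
      simp only [SetLike.mem_coe, LinearMap.mem_ker, ev, LinearMap.sub_apply,
        LinearMap.proj_apply, row]
      simp only [hz', sub_self]
    have h2 := h1 (hS y hy)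
    simp only [LinearMap.mem_ker, ev, LinearMap.sub_apply, LinearMap.proj_apply, row] at h2
    cases hxy : F x y <;> cases hxy' : F x' y <;> simp [hxy, hxy'] at h2 ⊢
  rcases A.eq_empty_or_nonempty with rfl | ⟨x₁, hx₁⟩
  · exact ⟨∅, by simp, by simp, id, by simp⟩
  haveI : Nonempty X := ⟨x₁⟩
  let pat : X → Finset Y := fun x => S.filter fun y => F x y = true
  have hpat : ∀ x ∈ A, ∀ x' ∈ A, pat x = pat x' → ∀ y ∈ B, F x y = F x' y := by
    intro x hx x' hx' h
    refine hdet x hx x' hx' fun y hy => ?_
    have h1 : y ∈ pat x ↔ y ∈ pat x' := by rw [h]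
    simp only [pat, mem_filter, hy, true_and] at h1
    cases h2 : F x y <;> cases h3 : F x' y <;> simp_all
  have hch : ∀ P ∈ A.image pat, ∃ x ∈ A, pat x = P := by
    intro P hP
    obtain ⟨x, hx, rfl⟩ := mem_image.1 hP
    exact ⟨x, hx, rfl⟩
  choose! h hh1 hh2 using hch
  refine ⟨(A.image pat).image h, ?_, ?_, fun x => h (pat x), ?_⟩
  · intro x hx
    obtain ⟨P, hP, rfl⟩ := mem_image.1 hx
    exact hh1 P hP
  · refine card_image_le.trans ?_
    have h1 : A.image pat ⊆ S.powerset := by
      intro P hP
      obtain ⟨x, -, rfl⟩ := mem_image.1 hP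
      exact mem_powerset.2 (filter_subset _ _)
    refine (card_le_card h1).trans ?_
    rw [card_powerset]
    exact Nat.pow_le_pow_right (by norm_num) hScard
  · intro x hx
    have hP : pat x ∈ A.image pat := mem_image_of_mem _ hx
    exact ⟨mem_image_of_mem _ hP, hpat _ (hh1 _ hP) x hx (hh2 _ hP)⟩

end Pool.Agent.Lib_helper66.LogRank
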