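import Mathlib
import Pool.Agent.Lib_helper10.LogRank.Proto
import Pool.Agent.Lib_helper66.LogRank.Rk

set_option autoImplicit false
set_option linter.unusedSectionVars false

/-! The Nisan-Wigderson argument, over an arbitrary field and with an explicit chain of exits
(so that no balancing of the protocol tree is needed). -/

namespace Pool.Agent.Lib_helper66.LogRank

open Finset Module
open Pool.Agent.Lib_helper10.LogRank (Protocol CCOn sendA sendA_nat sendB_nat)

variable {K : Type*} [Field K] {X Y : Type}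

/-- every sub-rectangle contains a monochromatic rectangle whose sides have relative density
at least `2 ^ (-δ)` -/
def RectDense (F : X → Y → Bool) (δ : ℕ) : Prop :=
  ∀ (A : Finset X) (B : Finset Y), A.Nonempty → B.Nonempty →
    ∃ A' ⊆ A, ∃ B' ⊆ B, A.card ≤ 2 ^ δ * A'.card ∧ B.card ≤ 2 ^ δ * B'.card ∧
      ∃ v : Bool, ∀ x ∈ A', ∀ y ∈ B', F x y = v

theorem shrink {α : Type} [DecidableEq α] {A A' : Finset α} (h : A' ⊆ A) {δ s : ℕ}
    (hc : A.card ≤ 2 ^ δ * A'.card)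
    (hs : (A.card : ℝ) * (1 - 1 / 2 ^ δ) ^ (s + 1) < 1) :
    (((A \ A').card : ℕ) : ℝ) * (1 - 1 / 2 ^ δ) ^ s < 1 := by
  have h1 : (((A \ A').card : ℕ) : ℝ) = A.card - A'.card := by
    rw [card_sdiff_of_subset h, Nat.cast_sub (card_le_card h)]
  have hpos : (0 : ℝ) < 2 ^ δ := by positivity
  have h2 : (A.card : ℝ) ≤ 2 ^ δ * A'.card := by exact_mod_cast hc
  have h3 : (A.card : ℝ) - A'.card ≤ A.card * (1 - 1 / 2 ^ δ) := by
    have : (A.card : ℝ) / 2 ^ δ ≤ A'.card := by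
      rw [div_le_iff₀ hpos]; linarith [mul_comm (2 ^ δ : ℝ) (A'.card : ℝ)]
    have h4 : (A.card : ℝ) * (1 - 1 / 2 ^ δ) = A.card - A.card / 2 ^ δ := by ring
    rw [h4]; linarith
  have h5 : (0 : ℝ) ≤ 1 - 1 / 2 ^ δ := by
    have : (1 : ℝ) / 2 ^ δ ≤ 1 := by
      rw [div_le_one hpos]; exact one_le_pow₀ (by norm_num)
    linarith
  have h6 : (0 : ℝ) ≤ (1 - 1 / 2 ^ δ) ^ s := pow_nonneg h5 _
  rw [h1]
  calc ((A.card : ℝ) - A'.card) * (1 - 1 / 2 ^ δ) ^ s
      ≤ (A.card * (1 - 1 / 2 ^ δ)) * (1 - 1 / 2 ^ δ) ^ s := mul_le_mul_of_nonneg_right h3 h6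
    _ = A.card * (1 - 1 / 2 ^ δ) ^ (s + 1) := by ring
    _ < 1 := hs

theorem chain (F : X → Y → Bool) (δ : ℕ) (hrect : RectDense F δ) (ρ : ℕ) :
    ∀ (n sA sB : ℕ), sA + sB = n → ∀ (A : Finset X) (B : Finset Y),
      (A.card : ℝ) * (1 - 1 / 2 ^ δ) ^ sA < 1 → (B.card : ℝ) * (1 - 1 / 2 ^ δ) ^ sB < 1 →
      rk K F A B ≤ 2 * ρ →
      ∃ (a : X → ℕ) (b : Y → ℕ) (P : ℕ → Finset X) (Q : ℕ → Finset Y),
        (∀ x ∈ A, ∀ y ∈ B, min (a x) (b y) < n) ∧
        (∀ x ∈ A, ∀ y ∈ B, x ∈ P (min (a x) (b y)) ∧ y ∈ Q (min (a x) (b y))) ∧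
        (∀ i, rk K F (P i) (Q i) ≤ ρ) := by
  classical
  intro n
  induction n with
  | zero =>
    intro sA sB hn A B hA hB _
    have : sA = 0 := by omega
    subst this
    have hA0 : A.card = 0 := by
      by_contra hne
      have : (1 : ℝ) ≤ A.card := by exact_mod_cast Nat.one_le_iff_ne_zero.2 hne
      rw [pow_zero, mul_one] at hA; linarith
    rw [card_eq_zero] at hA0
    subst hA0
    refine ⟨fun _ => 0, fun _ => 0, fun _ => ∅, fun _ => ∅, by simp, by simp, fun i => ?_⟩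
    rw [rk, rowSpace, Finset.coe_empty, Set.image_empty, Submodule.span_empty, finrank_bot]
    exact Nat.zero_le _
  | succ n ih =>
    intro sA sB hn A B hA hB hr
    rcases A.eq_empty_or_nonempty with rfl | hAne
    · refine ⟨fun _ => 0, fun _ => 0, fun _ => ∅, fun _ => ∅, by simp, by simp, fun i => ?_⟩
      rw [rk, rowSpace, Finset.coe_empty, Set.image_empty, Submodule.span_empty, finrank_bot]
      exact Nat.zero_le _
    rcases B.eq_empty_or_nonempty with rfl | hBne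
    · refine ⟨fun _ => 0, fun _ => 0, fun _ => ∅, fun _ => ∅, by simp, by simp, fun i => ?_⟩
      rw [rk, rowSpace, Finset.coe_empty, Set.image_empty, Submodule.span_empty, finrank_bot]
      exact Nat.zero_le _
    obtain ⟨A', hA', B', hB', hcA, hcB, v, hv⟩ := hrect A B hAne hBne
    have hsum := rk_mono_rect (K := K) F hA' hB' v hv
    have hone : ∀ {α : Type} (S : Finset α) (s : ℕ), S.Nonempty →
        (S.card : ℝ) * (1 - 1 / 2 ^ δ) ^ s < 1 → s ≠ 0 := by
      intro α S s hS hlt h0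
      subst h0
      have : (1 : ℝ) ≤ S.card := by exact_mod_cast hS.card_pos
      rw [pow_zero, mul_one] at hlt; linarith
    have hsA := hone A sA hAne hA
    have hsB := hone B sB hBne hB
    by_cases hcase : rk K F A' B ≤ ρ
    · obtain ⟨sA, rfl⟩ := Nat.exists_eq_succ_of_ne_zero hsA
      obtain ⟨a, b, P, Q, h1, h2, h3⟩ := ih sA sB (by omega) (A \ A') B (shrink hA' hcA hA) hB
        ((rk_mono_left F B sdiff_subset).trans hr)
      refine ⟨fun x => if x ∈ A' then 0 else a x + 1, fun y => b y + 1,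
        fun i => if i = 0 then A' else P (i - 1), fun i => if i = 0 then B else Q (i - 1),
        ?_, ?_, ?_⟩
      · intro x hx y hy
        by_cases hxA : x ∈ A'
        · simp [hxA]
        · simp only [hxA, if_false]
          have := h1 x (mem_sdiff.2 ⟨hx, hxA⟩) y hy
          omega
      · intro x hx y hy
        by_cases hxA : x ∈ A'
        · simp [hxA, hy]
        · simp only [hxA, if_false]
          have h4 := h2 x (mem_sdiff.2 ⟨hx, hxA⟩) y hy
          have h5 : min (a x + 1) (b y + 1) = min (a x) (b y) + 1 := by omega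
          rw [h5]
          simpa using h4
      · intro i
        by_cases hi : i = 0
        · simpa [hi] using hcase
        · simpa [hi] using h3 (i - 1)
    · have hcase' : rk K F A B' ≤ ρ := by omega
      obtain ⟨sB, rfl⟩ := Nat.exists_eq_succ_of_ne_zero hsB
      obtain ⟨a, b, P, Q, h1, h2, h3⟩ := ih sA sB (by omega) A (B \ B') hA (shrink hB' hcB hB)
        ((rk_mono_right F A sdiff_subset).trans hr)
      refine ⟨fun x => a x + 1, fun y => if y ∈ B' then 0 else b y + 1,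
        fun i => if i = 0 then A else P (i - 1), fun i => if i = 0 then B' else Q (i - 1),
        ?_, ?_, ?_⟩
      · intro x hx y hy
        by_cases hyB : y ∈ B'
        · simp [hyB]
        · simp only [hyB, if_false]
          have := h1 x hx y (mem_sdiff.2 ⟨hy, hyB⟩)
          omega
      · intro x hx y hy
        by_cases hyB : y ∈ B'
        · simp [hyB, hx]
        · simp only [hyB, if_false]
          have h4 := h2 x hx y (mem_sdiff.2 ⟨hy, hyB⟩)
          have h5 : min (a x + 1) (b y + 1) = min (a x) (b y) + 1 := by omega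
          rw [h5]
          simpa using h4
      · intro i
        by_cases hi : i = 0
        · simpa [hi] using hcase'
        · simpa [hi] using h3 (i - 1)

/-- Run a protocol on relabelled inputs. -/
def pull (s : X → X) (t : Y → Y) : Protocol X Y → Protocol X Y
  | .leaf b => .leaf b
  | .alice σ t₀ t₁ => .alice (fun x => σ (s x)) (pull s t t₀) (pull s t t₁)
  | .bob σ t₀ t₁ => .bob (fun y => σ (t y)) (pull s t t₀) (pull s t t₁)

theorem pull_cost (s : X → X) (t : Y → Y) (π : Protocol X Y) : (pull s t π).cost = π.cost := by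
  induction π with
  | leaf b => rfl
  | alice σ t₀ t₁ h0 h1 => simp [pull, Protocol.cost, h0, h1]
  | bob σ t₀ t₁ h0 h1 => simp [pull, Protocol.cost, h0, h1]

theorem pull_eval (s : X → X) (t : Y → Y) (π : Protocol X Y) (x : X) (y : Y) :
    (pull s t π).eval x y = π.eval (s x) (t y) := by
  induction π with
  | leaf b => rfl
  | alice σ t₀ t₁ h0 h1 => simp [pull, Protocol.eval, h0, h1]
  | bob σ t₀ t₁ h0 h1 => simp [pull, Protocol.eval, h0, h1]

theorem ccOn_pull {R R' : X → Y → Prop} {F : X → Y → Bool} {c : ℕ} (s : X → X) (t : Y → Y)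
    (hR : ∀ x y, R' x y → R (s x) (t y)) (hF : ∀ x y, R' x y → F (s x) (t y) = F x y)
    (h : CCOn R F c) : CCOn R' F c := by
  obtain ⟨π, h1, h2⟩ := h
  refine ⟨pull s t π, by rwa [pull_cost], fun x y hxy => ?_⟩
  rw [pull_eval, h2 _ _ (hR x y hxy), hF x y hxy]

/-- representatives on both sides -/
theorem exists_reps2 (F : X → Y → Bool) (A : Finset X) (B : Finset Y) :
    ∃ A₀ ⊆ A, ∃ B₀ ⊆ B, A₀.card ≤ 2 ^ rk K F A B ∧ B₀.card ≤ 2 ^ rk K F A B ∧
      ∃ (g : X → X) (h : Y → Y), ∀ x ∈ A, ∀ y ∈ B, g x ∈ A₀ ∧ h y ∈ B₀ ∧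
        F (g x) (h y) = F x y := by
  obtain ⟨A₀, hA₀, hcA, g, hg⟩ := exists_reps (K := K) F A B
  obtain ⟨B₀, hB₀, hcB, h, hh⟩ := exists_reps (K := K) (fun y x => F x y) B A
  rw [rk_transpose] at hcB
  refine ⟨A₀, hA₀, B₀, hB₀, hcA, hcB, g, h, fun x hx y hy => ⟨(hg x hx).1, (hh y hy).1, ?_⟩⟩
  rw [(hh y hy).2 (g x) (hA₀ (hg x hx).1), (hg x hx).2 y hy]

theorem size_bound (δ ℓ m : ℕ) (hm : m ≤ 2 ^ (2 ^ ℓ)) :
    (m : ℝ) * (1 - 1 / 2 ^ δ) ^ (2 ^ (δ + ℓ)) < 1 := by
  have hpos : (0 : ℝ) < 2 ^ δ := by positivity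
  have h5 : (0 : ℝ) ≤ 1 - 1 / 2 ^ δ := by
    have : (1 : ℝ) / 2 ^ δ ≤ 1 := by
      rw [div_le_one hpos]; exact one_le_pow₀ (by norm_num)
    linarith
  have h1 : (1 - 1 / 2 ^ δ : ℝ) ^ (2 ^ δ) ≤ Real.exp (-1) := by
    have := Real.one_sub_div_pow_le_exp_neg (n := 2 ^ δ) (t := 1)
      (by exact_mod_cast Nat.one_le_two_pow)
    simpa using this
  have h2 : Real.exp (-1) < 1 / 2 := by
    have := Real.exp_neg_one_lt_d9
    linarith
  have h3 : (1 - 1 / 2 ^ δ : ℝ) ^ (2 ^ (δ + ℓ)) ≤ Real.exp (-1) ^ (2 ^ ℓ) := by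
    rw [pow_add 2 δ ℓ, pow_mul]
    exact pow_le_pow_left₀ (pow_nonneg h5 _) h1 _
  have h4 : (m : ℝ) ≤ 2 ^ (2 ^ ℓ) := by exact_mod_cast hm
  calc (m : ℝ) * (1 - 1 / 2 ^ δ) ^ (2 ^ (δ + ℓ))
      ≤ 2 ^ (2 ^ ℓ) * Real.exp (-1) ^ (2 ^ ℓ) :=
        mul_le_mul h4 h3 (pow_nonneg h5 _) (by positivity)
    _ = (2 * Real.exp (-1)) ^ (2 ^ ℓ) := by rw [mul_pow]
    _ < 1 := pow_lt_one₀ (by positivity) (by linarith) (by positivity)

theorem nw_aux (F : X → Y → Bool) (δ ℓ : ℕ) (hrect : RectDense F δ) :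
    ∀ s ≤ ℓ, ∀ (A : Finset X) (B : Finset Y), rk K F A B ≤ 2 ^ s →
      CCOn (fun x y => x ∈ A ∧ y ∈ B) F (2 + s * (2 * (δ + ℓ + 2))) := by
  classical
  intro s
  induction s with
  | zero =>
    intro _ A B hr
    obtain ⟨A₀, hA₀, hcA, g, hg⟩ := exists_reps (K := K) F A B
    have hc2 : A₀.card ≤ 2 ^ 1 := hcA.trans (Nat.pow_le_pow_right (by norm_num) (by simpa using hr))
    have key : CCOn (fun x y => x ∈ A ∧ y ∈ B) F (1 + 1) := by
      rcases A.eq_empty_or_nonempty with rfl | ⟨x₁, hx₁⟩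
      · exact ⟨.leaf true, by simp [Protocol.cost], by simp⟩
      refine sendA (b := 1) (L := A₀)
        (fun x => if hx : x ∈ A then ⟨g x, (hg x hx).1⟩ else ⟨g x₁, (hg x₁ hx₁).1⟩)
        (by simpa using hc2) fun l => ?_
      refine ⟨Protocol.bob (fun y => F l y) (.leaf false) (.leaf true), by simp [Protocol.cost],
        fun x y hxy => ?_⟩
      obtain ⟨⟨hx, hy⟩, h3⟩ := hxy
      simp only [hx, dif_pos] at h3
      have h4 : F x y = F l y := by rw [← (hg x hx).2 y hy, ← h3]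
      rw [h4]
      cases h5 : F (↑l) y <;> simp [Protocol.eval, h5]
    simpa using key
  | succ s ih =>
    intro hs A B hr
    obtain ⟨A₀, hA₀, B₀, hB₀, hcA, hcB, g, h, hgh⟩ := exists_reps2 (K := K) F A B
    have hr' : rk K F A B ≤ 2 ^ ℓ := hr.trans (Nat.pow_le_pow_right (by norm_num) hs)
    have hr0 : rk K F A₀ B₀ ≤ 2 * 2 ^ s := by
      refine ((rk_mono_left F B₀ hA₀).trans (rk_mono_right F A hB₀)).trans ?_
      rw [pow_succ] at hr; omega
    obtain ⟨a, b, P, Q, h1, h2, h3⟩ := chain (K := K) F δ hrect (2 ^ s) _ (2 ^ (δ + ℓ))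
      (2 ^ (δ + ℓ)) rfl A₀ B₀
      (size_bound δ ℓ _ (hcA.trans (Nat.pow_le_pow_right (by norm_num) hr')))
      (size_bound δ ℓ _ (hcB.trans (Nat.pow_le_pow_right (by norm_num) hr'))) hr0
    set S := 2 ^ (δ + ℓ) + 2 ^ (δ + ℓ) with hS
    have hS2 : S < 2 ^ (δ + ℓ + 2) := by
      rw [hS, pow_succ, pow_succ]
      have : 0 < 2 ^ (δ + ℓ) := by positivity
      omega
    have hcost : 2 + (s + 1) * (2 * (δ + ℓ + 2)) =
        2 + s * (2 * (δ + ℓ + 2)) + (δ + ℓ + 2) + (δ + ℓ + 2) := by ring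
    rw [hcost]
    refine ccOn_pull (R := fun x y => x ∈ A₀ ∧ y ∈ B₀) g h
      (fun x y hxy => ⟨(hgh x hxy.1 y hxy.2).1, (hgh x hxy.1 y hxy.2).2.1⟩)
      (fun x y hxy => (hgh x hxy.1 y hxy.2).2.2) ?_
    refine sendA_nat (R := fun _ _ => True) (δ + ℓ + 2) _ (fun x => min (a x) S)
      (fun x => (min_le_right _ _).trans_lt hS2) fun α => ?_
    refine sendB_nat (R := fun _ _ => True) (δ + ℓ + 2) _ (fun y => min (b y) S)
      (fun y => (min_le_right _ _).trans_lt hS2) fun β => ?_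
    refine (ih (by omega) (P (min α β)) (Q (min α β)) (h3 _)).mono (fun x y hxy => ?_) le_rfl
    obtain ⟨⟨⟨hx, hy⟩, hα⟩, hβ⟩ := hxy
    have h4 := h1 x hx y hy
    have h5 : min α β = min (a x) (b y) := by omega
    rw [h5]
    exact h2 x hx y hy

/-- Nisan-Wigderson: dense monochromatic rectangles give a protocol. -/
theorem nw [Fintype X] [Fintype Y] (F : X → Y → Bool) (δ ℓ : ℕ) (hrect : RectDense F δ)
    (hr : rk K F univ univ ≤ 2 ^ ℓ) :
    ∃ π : Protocol X Y, π.cost ≤ 2 + ℓ * (2 * (δ + ℓ + 2)) ∧ ∀ x y, π.eval x y = F x y := by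
  obtain ⟨π, h1, h2⟩ := nw_aux (K := K) F δ ℓ hrect ℓ le_rfl univ univ hr
  exact ⟨π, h1, fun x y => h2 x y ⟨mem_univ _, mem_univ _⟩⟩

end Pool.Agent.Lib_helper66.LogRank
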