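import Mathlib
import Pool.Agent.Lib_helper66.LogRank.NW

set_option autoImplicit false
set_option linter.unusedSectionVars false

/-! Dense monochromatic rectangles from bounded VC dimension and bounded rank. -/

namespace Pool.Agent.Lib_helper66.LogRank

open Finset Module

variable {K : Type*} [Field K] {X Y : Type}

/-- The rows of `F` shatter the set `S` of columns: every subset `T` of `S` is cut out of `S`
by some row. -/
def RowsShatter (F : X → Y → Bool) (S : Finset Y) : Prop :=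
  ∀ T : Finset Y, T ⊆ S → ∃ x : X, ∀ y ∈ S, (F x y = true ↔ y ∈ T)

theorem RowsShatter.card_le_rk [Fintype X] {F : X → Y → Bool} {S : Finset Y}
    (h : RowsShatter F S) : S.card ≤ rk K F univ S := by
  classical
  have h1 : rowSpace K F univ S = ⊤ := by
    rw [eq_top_iff, ← (Pi.basisFun K S).span_eq, Submodule.span_le]
    rintro _ ⟨y, rfl⟩
    obtain ⟨x, hx⟩ := h {y.1} (by simp)
    refine Submodule.subset_span ⟨x, by simp, ?_⟩
    ext z
    have := hx z z.2
    rw [Pi.basisFun_apply, row]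
    by_cases hz : z = y
    · subst hz
      have h2 : F x z = true := this.2 (by simp)
      simp [h2]
    · have h2 : ¬ F x z = true := fun h3 => hz (Subtype.ext (by simpa using this.1 h3))
      rw [Pi.single_eq_of_ne hz, if_neg h2]
  rw [rk, h1, finrank_top, finrank_fintype_fun_eq_card, Fintype.card_coe]

theorem sum_choose_le (m d : ℕ) : ∑ k ∈ Iic d, m.choose k ≤ (m + 1) ^ d := by
  have h1 : (m + 1) ^ d = ∑ k ∈ range (d + 1), m ^ k * d.choose k := by
    rw [add_pow]; simp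
  rw [h1]
  have h2 : Iic d = range (d + 1) := by ext k; simp
  rw [h2]
  refine sum_le_sum fun k hk => ?_
  have hk' : k ≤ d := Nat.lt_succ_iff.1 (mem_range.1 hk)
  calc m.choose k ≤ m ^ k := Nat.choose_le_pow m k
    _ = m ^ k * 1 := (mul_one _).symm
    _ ≤ m ^ k * d.choose k := Nat.mul_le_mul_left _ (Nat.choose_pos hk')

/-- the pattern of the row `x` on the sample `s` -/
def pat (F : X → Y → Bool) {m : ℕ} (s : Fin m → Y) (x : X) : Finset (Fin m) :=
  univ.filter fun i => F x (s i) = true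

theorem card_patterns (F : X → Y → Bool) (d : ℕ)
    (hd : ∀ S : Finset Y, RowsShatter F S → S.card ≤ d) {m : ℕ} (s : Fin m → Y) (A : Finset X) :
    (A.image (pat F s)).card ≤ (m + 1) ^ d := by
  classical
  set 𝒜 := A.image (pat F s) with h𝒜
  have h1 : 𝒜.card ≤ ∑ k ∈ Iic 𝒜.vcDim, (Fintype.card (Fin m)).choose k :=
    𝒜.card_le_card_shatterer.trans card_shatterer_le_sum_vcDim
  have h2 : 𝒜.vcDim ≤ d := by
    rw [Finset.vcDim]
    refine Finset.sup_le fun T hT => ?_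
    rw [mem_shatterer] at hT
    have hinj : Set.InjOn s (T : Set (Fin m)) := by
      intro i hi j hj hij
      by_contra hne
      obtain ⟨u, hu, hTu⟩ := hT (t := {i}) (by simpa using hi)
      obtain ⟨x, hx, rfl⟩ := mem_image.1 hu
      have h3 : i ∈ T ∩ pat F s x := by rw [hTu]; simp
      have h4 : j ∉ T ∩ pat F s x := by rw [hTu]; simpa using fun h => hne h.symm
      rw [mem_inter, pat, mem_filter] at h3
      apply h4
      rw [mem_inter, pat, mem_filter]
      exact ⟨hj, mem_univ _, by rw [← hij]; exact h3.2.2⟩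
    have h5 : RowsShatter F (T.image s) := by
      intro U hU
      obtain ⟨u, hu, hTu⟩ := hT (t := T.filter fun i => s i ∈ U) (filter_subset _ _)
      obtain ⟨x, hx, rfl⟩ := mem_image.1 hu
      refine ⟨x, fun y hy => ?_⟩
      obtain ⟨i, hi, rfl⟩ := mem_image.1 hy
      have h6 : i ∈ T ∩ pat F s x ↔ i ∈ T.filter fun i => s i ∈ U := by rw [hTu]
      simp only [mem_inter, pat, mem_filter, mem_univ, true_and, hi] at h6
      exact h6
    have h7 := hd _ h5
    rwa [card_image_of_injOn hinj] at h7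
  calc 𝒜.card ≤ ∑ k ∈ Iic 𝒜.vcDim, (Fintype.card (Fin m)).choose k := h1
    _ ≤ ∑ k ∈ Iic d, m.choose k := by
        rw [Fintype.card_fin]
        exact sum_le_sum_of_subset (Iic_subset_Iic.2 h2)
    _ ≤ (m + 1) ^ d := sum_choose_le m d

/-- number of columns of `B` where the rows `x`, `x'` differ -/
def dif (F : X → Y → Bool) (B : Finset Y) (x x' : X) : ℕ :=
  (B.filter fun y => F x y ≠ F x' y).card

theorem exists_center (F : X → Y → Bool) (d : ℕ)
    (hd : ∀ S : Finset Y, RowsShatter F S → S.card ≤ d) (m e : ℕ)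
    (hm : 2 * ((m : ℝ) + 1) ^ d * (1 - 1 / 2 ^ e) ^ m ≤ 1)
    (A : Finset X) (B : Finset Y) (hA : A.Nonempty) (hB : B.Nonempty) :
    ∃ x₀ ∈ A, A.card ≤ 2 * (m + 1) ^ d *
      (A.filter fun x => 2 ^ e * dif F B x x₀ ≤ B.card).card := by
  classical
  by_contra hcon
  push Not at hcon
  -- far pairs
  let far : Finset (X × X) := (A ×ˢ A).filter fun p => B.card < 2 ^ e * dif F B p.1 p.2
  let Ω : Finset (Fin m → Y) := Fintype.piFinset fun _ => B
  let same : (Fin m → Y) → Finset (X × X) := fun s =>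
    (A ×ˢ A).filter fun p => pat F s p.1 = pat F s p.2
  set Φ := (m + 1) ^ d with hΦ
  have hΦpos : 0 < Φ := by positivity
  -- Cauchy-Schwarz
  have hCS : ∀ s, A.card ^ 2 ≤ Φ * (same s).card := by
    intro s
    have h1 : (same s).card = ∑ P ∈ A.image (pat F s),
        (A.filter fun x => pat F s x = P).card ^ 2 := by
      have h2 : (same s).card = ∑ P ∈ A.image (pat F s),
          ((same s).filter fun p => pat F s p.1 = P).card := by
        refine card_eq_sum_card_fiberwise fun p hp => ?_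
        simp only [same, coe_filter, Set.mem_ofPred_eq, mem_product] at hp
        exact mem_coe.2 (mem_image_of_mem _ hp.1.1)
      rw [h2]
      refine sum_congr rfl fun P hP => ?_
      rw [sq, ← card_product]
      congr 1
      ext p
      simp only [same, mem_filter, mem_product]
      constructor
      · rintro ⟨⟨⟨h3, h4⟩, h5⟩, h6⟩
        exact ⟨⟨h3, h6⟩, h4, h5 ▸ h6⟩
      · rintro ⟨⟨h3, h6⟩, h4, h5⟩
        exact ⟨⟨⟨h3, h4⟩, h6.trans h5.symm⟩, h6⟩
    have h3 : A.card = ∑ P ∈ A.image (pat F s), (A.filter fun x => pat F s x = P).card :=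
      card_eq_sum_card_fiberwise fun x hx => mem_coe.2 (mem_image_of_mem _ hx)
    have h4 : A.card ^ 2 ≤ (A.image (pat F s)).card * (same s).card := by
      rw [h1]
      conv_lhs => rw [h3]
      exact sq_sum_le_card_mul_sum_sq
    exact h4.trans (Nat.mul_le_mul_right _ (card_patterns F d hd s A))
  -- same and close pairs are few
  have hclose : ∀ s, 2 * Φ * ((same s) \ far).card < A.card ^ 2 := by
    intro s
    have h1 : ((same s) \ far).card ≤ ∑ x₀ ∈ A,
        (A.filter fun x => 2 ^ e * dif F B x x₀ ≤ B.card).card := by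
      have h2 : ((same s) \ far).card ≤ ∑ x₀ ∈ A, (((same s) \ far).filter
          fun p => p.2 = x₀).card := by
        refine (card_eq_sum_card_fiberwise fun p hp => ?_).le
        simp only [same, coe_sdiff, coe_filter, Set.mem_sdiff, Set.mem_ofPred_eq,
          mem_product] at hp
        exact hp.1.1.2
      refine h2.trans (sum_le_sum fun x₀ hx₀ => ?_)
      refine card_le_card_of_injOn Prod.fst (fun p hp => ?_) ?_
      · simp only [same, far, coe_filter, Set.mem_ofPred_eq, mem_sdiff, mem_filter, mem_product,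
          not_and, not_lt] at hp ⊢
        obtain ⟨⟨⟨⟨h3, h4⟩, h5⟩, h6⟩, h7⟩ := hp
        refine ⟨h3, ?_⟩
        rw [← h7]
        exact h6 ⟨h3, h4⟩
      · rintro ⟨a, b⟩ hp ⟨a', b'⟩ hp' h
        simp only [coe_filter, Set.mem_ofPred_eq] at hp hp' h
        rw [Prod.mk.injEq]
        exact ⟨h, hp.2.trans hp'.2.symm⟩
    calc 2 * Φ * ((same s) \ far).card
        ≤ 2 * Φ * ∑ x₀ ∈ A, (A.filter fun x => 2 ^ e * dif F B x x₀ ≤ B.card).card :=
          Nat.mul_le_mul_left _ h1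
      _ = ∑ x₀ ∈ A, 2 * Φ * (A.filter fun x => 2 ^ e * dif F B x x₀ ≤ B.card).card := by
          rw [mul_sum]
      _ < ∑ x₀ ∈ A, A.card := sum_lt_sum_of_nonempty hA fun x₀ hx₀ => hcon x₀ hx₀
      _ = A.card ^ 2 := by rw [sum_const, smul_eq_mul, sq]
  -- hence same and far pairs are many, for every sample
  have hfar : ∀ s, A.card ^ 2 < 2 * Φ * ((same s) ∩ far).card := by
    intro s
    have h1 := hCS s
    have h2 := hclose s
    have h3 : (same s).card = ((same s) \ far).card + ((same s) ∩ far).card := by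
      rw [card_sdiff_add_card_inter]
    rw [h3] at h1
    nlinarith
  -- but the average over the samples is small
  have hsum : ∑ s ∈ Ω, ((same s) ∩ far).card = ∑ p ∈ far,
      (Ω.filter fun s => pat F s p.1 = pat F s p.2).card := by
    simp only [card_eq_sum_ones, sum_filter]
    rw [sum_comm' (t' := far) (s' := fun p => Ω.filter fun s => pat F s p.1 = pat F s p.2)]
    · simp only [sum_filter]
    · intro s p
      simp only [same, far, mem_inter, mem_filter, mem_product]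
      tauto
  have hpair : ∀ p ∈ far, ((Ω.filter fun s => pat F s p.1 = pat F s p.2).card : ℝ) ≤
      ((1 - 1 / 2 ^ e) * B.card) ^ m := by
    intro p hp
    have h1 : Ω.filter (fun s => pat F s p.1 = pat F s p.2) ⊆
        Fintype.piFinset fun _ => B.filter fun y => F p.1 y = F p.2 y := by
      intro s hs
      simp only [Ω, mem_filter, Fintype.mem_piFinset] at hs ⊢
      refine fun i => ⟨hs.1 i, ?_⟩
      have h2 : i ∈ pat F s p.1 ↔ i ∈ pat F s p.2 := by rw [hs.2]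
      simp only [pat, mem_filter, mem_univ, true_and] at h2
      cases h3 : F p.1 (s i) <;> cases h4 : F p.2 (s i) <;> simp_all
    have h2 : (Ω.filter fun s => pat F s p.1 = pat F s p.2).card ≤
        (B.filter fun y => F p.1 y = F p.2 y).card ^ m := by
      refine (card_le_card h1).trans ?_
      rw [Fintype.card_piFinset]
      simp
    have h3 : (B.filter fun y => F p.1 y = F p.2 y).card + dif F B p.1 p.2 = B.card := by
      rw [dif]
      exact card_filter_add_card_filter_not _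
    have h4 : B.card < 2 ^ e * dif F B p.1 p.2 := (mem_filter.1 hp).2
    have h5 : ((B.filter fun y => F p.1 y = F p.2 y).card : ℝ) ≤ (1 - 1 / 2 ^ e) * B.card := by
      have h6 : ((B.filter fun y => F p.1 y = F p.2 y).card : ℝ) + dif F B p.1 p.2 = B.card := by
        exact_mod_cast h3
      have h7 : (B.card : ℝ) / 2 ^ e ≤ dif F B p.1 p.2 := by
        rw [div_le_iff₀ (by positivity)]
        have : (B.card : ℝ) ≤ 2 ^ e * dif F B p.1 p.2 := by exact_mod_cast h4.le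
        linarith
      have h8 : (1 - 1 / 2 ^ e : ℝ) * B.card = B.card - B.card / 2 ^ e := by ring
      rw [h8]; linarith
    calc ((Ω.filter fun s => pat F s p.1 = pat F s p.2).card : ℝ)
        ≤ ((B.filter fun y => F p.1 y = F p.2 y).card : ℝ) ^ m := by exact_mod_cast h2
      _ ≤ _ := pow_le_pow_left₀ (by positivity) h5 m
  have hΩ : (Ω.card : ℝ) = (B.card : ℝ) ^ m := by
    rw [Fintype.card_piFinset]; simp
  have hΩne : Ω.Nonempty := by
    obtain ⟨y, hy⟩ := hB
    exact ⟨fun _ => y, Fintype.mem_piFinset.2 fun _ => hy⟩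
  have hlow : (A.card : ℝ) ^ 2 * Ω.card < 2 * Φ * ∑ s ∈ Ω, (((same s) ∩ far).card : ℝ) := by
    have h1 : ∑ s ∈ Ω, A.card ^ 2 < ∑ s ∈ Ω, 2 * Φ * ((same s) ∩ far).card :=
      sum_lt_sum_of_nonempty hΩne fun s _ => hfar s
    rw [sum_const, smul_eq_mul, ← mul_sum] at h1
    have h2 : ((Ω.card * A.card ^ 2 : ℕ) : ℝ) <
        ((2 * Φ * ∑ s ∈ Ω, ((same s) ∩ far).card : ℕ) : ℝ) := by exact_mod_cast h1
    push_cast at h2
    push_cast
    linarith
  have hup : ∑ s ∈ Ω, (((same s) ∩ far).card : ℝ) ≤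
      (A.card : ℝ) ^ 2 * ((1 - 1 / 2 ^ e) * B.card) ^ m := by
    have h1 : ∑ s ∈ Ω, (((same s) ∩ far).card : ℝ) = ∑ p ∈ far,
      ((Ω.filter fun s => pat F s p.1 = pat F s p.2).card : ℝ) := by exact_mod_cast hsum
    rw [h1]
    have h0 : (0 : ℝ) ≤ 1 - 1 / 2 ^ e := by
      have : (1 : ℝ) / 2 ^ e ≤ 1 := by
        rw [div_le_one (by positivity)]; exact one_le_pow₀ (by norm_num)
      linarith
    have h2 : (far.card : ℝ) ≤ (A.card : ℝ) ^ 2 := by
      have : far.card ≤ A.card ^ 2 := by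
        rw [sq, ← card_product]; exact card_filter_le _ _
      exact_mod_cast this
    calc ∑ p ∈ far, ((Ω.filter fun s => pat F s p.1 = pat F s p.2).card : ℝ)
        ≤ ∑ p ∈ far, ((1 - 1 / 2 ^ e) * (B.card : ℝ)) ^ m := sum_le_sum hpair
      _ = far.card * ((1 - 1 / 2 ^ e) * (B.card : ℝ)) ^ m := by rw [sum_const, nsmul_eq_mul]
      _ ≤ _ := mul_le_mul_of_nonneg_right h2 (by positivity)
  have hΦr : (Φ : ℝ) = ((m : ℝ) + 1) ^ d := by rw [hΦ]; push_cast; rfl
  have hBpos : (0 : ℝ) < (B.card : ℝ) ^ m := by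
    have : (0 : ℝ) < B.card := by exact_mod_cast hB.card_pos
    positivity
  have hfin : 2 * (Φ : ℝ) * ∑ s ∈ Ω, (((same s) ∩ far).card : ℝ) ≤
      (A.card : ℝ) ^ 2 * Ω.card := by
    calc 2 * (Φ : ℝ) * ∑ s ∈ Ω, (((same s) ∩ far).card : ℝ)
        ≤ 2 * (Φ : ℝ) * ((A.card : ℝ) ^ 2 * ((1 - 1 / 2 ^ e) * B.card) ^ m) :=
          mul_le_mul_of_nonneg_left hup (by positivity)
      _ = (2 * ((m : ℝ) + 1) ^ d * (1 - 1 / 2 ^ e) ^ m) * ((A.card : ℝ) ^ 2 * (B.card : ℝ) ^ m) := by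
          rw [hΦr, mul_pow]; ring
      _ ≤ 1 * ((A.card : ℝ) ^ 2 * (B.card : ℝ) ^ m) :=
          mul_le_mul_of_nonneg_right hm (by positivity)
      _ = _ := by rw [hΩ, one_mul]
  linarith

theorem sample_bound (ℓ d : ℕ) (hd : d ≤ 2 ^ ℓ) :
    2 * (((2 ^ (3 * ℓ + 7) : ℕ) : ℝ) + 1) ^ d * (1 - 1 / 2 ^ (ℓ + 3)) ^ (2 ^ (3 * ℓ + 7)) ≤ 1 := by
  have h5 : (0 : ℝ) ≤ 1 - 1 / 2 ^ (ℓ + 3) := by
    have : (1 : ℝ) / 2 ^ (ℓ + 3) ≤ 1 := by
      rw [div_le_one (by positivity)]; exact one_le_pow₀ (by norm_num)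
    linarith
  have h1 : (1 - 1 / 2 ^ (ℓ + 3) : ℝ) ^ (2 ^ (ℓ + 3)) ≤ 1 / 2 := by
    have := Real.one_sub_div_pow_le_exp_neg (n := 2 ^ (ℓ + 3)) (t := 1)
      (by exact_mod_cast Nat.one_le_two_pow)
    have h2 := Real.exp_neg_one_lt_d9
    have h3 : (1 - 1 / 2 ^ (ℓ + 3) : ℝ) ^ (2 ^ (ℓ + 3)) ≤ Real.exp (-1) := by simpa using this
    linarith
  have h3 : (1 - 1 / 2 ^ (ℓ + 3) : ℝ) ^ (2 ^ (3 * ℓ + 7)) ≤ (1 / 2) ^ (2 ^ (2 * ℓ + 4)) := by
    have : 2 ^ (3 * ℓ + 7) = 2 ^ (ℓ + 3) * 2 ^ (2 * ℓ + 4) := by rw [← pow_add]; congr 1; ring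
    rw [this, pow_mul]
    exact pow_le_pow_left₀ (pow_nonneg h5 _) h1 _
  have h4 : (((2 ^ (3 * ℓ + 7) : ℕ) : ℝ) + 1) ^ d ≤ 2 ^ ((3 * ℓ + 8) * d) := by
    rw [pow_mul]
    refine pow_le_pow_left₀ (by positivity) ?_ d
    push_cast
    rw [show 3 * ℓ + 8 = (3 * ℓ + 7) + 1 by ring, pow_succ (2 : ℝ) (3 * ℓ + 7)]
    have : (1 : ℝ) ≤ 2 ^ (3 * ℓ + 7) := one_le_pow₀ (by norm_num)
    linarith
  have h6 : 1 + (3 * ℓ + 8) * d ≤ 2 ^ (2 * ℓ + 4) := by
    have h7 : ℓ + 1 ≤ 2 ^ ℓ := Nat.lt_two_pow_self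
    have h8 : 2 ^ (2 * ℓ + 4) = 16 * (2 ^ ℓ * 2 ^ ℓ) := by ring
    rw [h8]
    nlinarith
  calc 2 * (((2 ^ (3 * ℓ + 7) : ℕ) : ℝ) + 1) ^ d * (1 - 1 / 2 ^ (ℓ + 3)) ^ (2 ^ (3 * ℓ + 7))
      ≤ 2 * 2 ^ ((3 * ℓ + 8) * d) * (1 / 2) ^ (2 ^ (2 * ℓ + 4)) := by
        refine mul_le_mul (mul_le_mul_of_nonneg_left h4 (by norm_num)) h3
          (pow_nonneg h5 _) (by positivity)
    _ = 2 ^ (1 + (3 * ℓ + 8) * d) * (1 / 2) ^ (2 ^ (2 * ℓ + 4)) := by
        rw [pow_add (2 : ℝ) 1 ((3 * ℓ + 8) * d), pow_one]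
    _ ≤ 2 ^ (2 ^ (2 * ℓ + 4)) * (1 / 2) ^ (2 ^ (2 * ℓ + 4)) :=
        mul_le_mul_of_nonneg_right (pow_le_pow_right₀ (by norm_num) h6) (by positivity)
    _ = 1 := by rw [← mul_pow]; norm_num

theorem rectDense_of_vc [Fintype X] [Fintype Y] (F : X → Y → Bool) (d ℓ : ℕ)
    (hd : ∀ S : Finset Y, RowsShatter F S → S.card ≤ d) (hdl : d ≤ 2 ^ ℓ)
    (hr : rk K F univ univ ≤ 2 ^ ℓ) : RectDense F (2 + (3 * ℓ + 8) * d) := by
  classical
  intro A B hA hB
  obtain ⟨x₀, hx₀, hcard⟩ := exists_center F d hd (2 ^ (3 * ℓ + 7)) (ℓ + 3)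
    (sample_bound ℓ d hdl) A B hA hB
  set A' := A.filter fun x => 2 ^ (ℓ + 3) * dif F B x x₀ ≤ B.card with hA'
  have hA'A : A' ⊆ A := filter_subset _ _
  have hcardA : A.card ≤ 2 ^ (2 + (3 * ℓ + 8) * d) * A'.card := by
    refine hcard.trans (Nat.mul_le_mul_right _ ?_)
    have h1 : (2 ^ (3 * ℓ + 7) + 1) ^ d ≤ 2 ^ ((3 * ℓ + 8) * d) := by
      rw [pow_mul]
      refine Nat.pow_le_pow_left ?_ d
      rw [show 3 * ℓ + 8 = (3 * ℓ + 7) + 1 by ring, pow_succ 2 (3 * ℓ + 7)]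
      have : 1 ≤ 2 ^ (3 * ℓ + 7) := Nat.one_le_two_pow
      omega
    rw [pow_add 2 2 ((3 * ℓ + 8) * d)]
    calc 2 * (2 ^ (3 * ℓ + 7) + 1) ^ d ≤ 2 * 2 ^ ((3 * ℓ + 8) * d) := Nat.mul_le_mul_left _ h1
      _ ≤ 2 ^ 2 * 2 ^ ((3 * ℓ + 8) * d) := Nat.mul_le_mul_right _ (by norm_num)
  -- majority value
  obtain ⟨v, hv⟩ : ∃ v : Bool, B.card ≤ 2 * (B.filter fun y => F x₀ y = v).card := by
    have h1 : (B.filter fun y => F x₀ y = true).card +
        (B.filter fun y => ¬ F x₀ y = true).card = B.card :=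
      card_filter_add_card_filter_not _
    by_cases h2 : B.card ≤ 2 * (B.filter fun y => F x₀ y = true).card
    · exact ⟨true, h2⟩
    · refine ⟨false, ?_⟩
      have h3 : (B.filter fun y => F x₀ y = false) = (B.filter fun y => ¬ F x₀ y = true) := by
        ext y; simp
      rw [h3]; omega
  obtain ⟨S, hSA, hScard, hS⟩ := exists_spanning_rows (K := K) F A' B
  have hScard' : S.card ≤ 2 ^ ℓ :=
    hScard.trans (((rk_mono_left F B (subset_univ _)).trans
      (rk_mono_right F univ (subset_univ _))).trans hr)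
  set B₁ := B.filter fun y => F x₀ y = v with hB₁
  set B₂ := B₁.filter fun y => ∀ x ∈ S, F x y = v with hB₂
  have hB₂B : B₂ ⊆ B := (filter_subset _ _).trans (filter_subset _ _)
  have hB₂card : 3 * B.card ≤ 8 * B₂.card := by
    have h1 : B₁ \ B₂ ⊆ S.biUnion fun x => B.filter fun y => F x y ≠ F x₀ y := by
      intro y hy
      simp only [hB₂, hB₁, mem_sdiff, mem_filter, not_and, not_forall] at hy
      obtain ⟨⟨hyB, hyv⟩, h2⟩ := hy
      obtain ⟨x, hx, hne⟩ := h2 ⟨hyB, hyv⟩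
      exact mem_biUnion.2 ⟨x, hx, mem_filter.2 ⟨hyB, by rw [hyv]; exact hne⟩⟩
    have h2 : 8 * (B₁ \ B₂).card ≤ B.card := by
      have h3 : (B₁ \ B₂).card ≤ ∑ x ∈ S, dif F B x x₀ := (card_le_card h1).trans card_biUnion_le
      have h4 : ∑ x ∈ S, 2 ^ (ℓ + 3) * dif F B x x₀ ≤ ∑ x ∈ S, B.card :=
        sum_le_sum fun x hx => (mem_filter.1 (hSA hx)).2
      rw [← mul_sum, sum_const, smul_eq_mul] at h4
      have h5 : 2 ^ ℓ * (8 * (B₁ \ B₂).card) ≤ 2 ^ ℓ * B.card := by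
        calc 2 ^ ℓ * (8 * (B₁ \ B₂).card) = 2 ^ (ℓ + 3) * (B₁ \ B₂).card := by ring
          _ ≤ 2 ^ (ℓ + 3) * ∑ x ∈ S, dif F B x x₀ := Nat.mul_le_mul_left _ h3
          _ ≤ S.card * B.card := h4
          _ ≤ 2 ^ ℓ * B.card := Nat.mul_le_mul_right _ hScard'
      exact Nat.le_of_mul_le_mul_left h5 (by positivity)
    have h6 : (B₁ \ B₂).card + B₂.card = B₁.card := by
      have := card_sdiff_add_card_eq_card (filter_subset (fun y => ∀ x ∈ S, F x y = v) B₁)
      simpa [hB₂] using this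
    omega
  refine ⟨A', hA'A, B₂, hB₂B, hcardA, ?_, v, ?_⟩
  · have h1 : 4 ≤ 2 ^ (2 + (3 * ℓ + 8) * d) := by
      calc 4 = 2 ^ 2 := by norm_num
        _ ≤ 2 ^ (2 + (3 * ℓ + 8) * d) := Nat.pow_le_pow_right (by norm_num) (by omega)
    calc B.card ≤ 4 * B₂.card := by omega
      _ ≤ _ := Nat.mul_le_mul_right _ h1
  · intro x hx y hy
    by_contra hne
    have hconst : ∀ y' ∈ B₂, F x y' = F x y := by
      intro y' hy'
      let ev : (B → K) →ₗ[K] K :=
        (LinearMap.proj (⟨y', hB₂B hy'⟩ : B) : (B → K) →ₗ[K] K) -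
          LinearMap.proj (⟨y, hB₂B hy⟩ : B)
      have h1 : Submodule.span K (row K F B '' (S : Set X)) ≤ LinearMap.ker ev := by
        rw [Submodule.span_le]
        rintro _ ⟨z, hz, rfl⟩
        have hz' : z ∈ S := by exact_mod_cast hz
        have e1 : F z y' = v := (mem_filter.1 hy').2 z hz'
        have e2 : F z y = v := (mem_filter.1 hy).2 z hz'
        simp only [SetLike.mem_coe, LinearMap.mem_ker, ev, LinearMap.sub_apply,
          LinearMap.proj_apply, row]
        simp only [e1, e2, sub_self]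
      have h2 := h1 (hS x hx)
      simp only [LinearMap.mem_ker, ev, LinearMap.sub_apply, LinearMap.proj_apply, row] at h2
      cases hxy : F x y <;> cases hxy' : F x y' <;> simp [hxy, hxy'] at h2 ⊢
    have h3 : B₂ ⊆ B.filter fun y => F x y ≠ F x₀ y := by
      intro y' hy'
      refine mem_filter.2 ⟨hB₂B hy', ?_⟩
      have e3 : F x₀ y' = v := (mem_filter.1 (mem_filter.1 hy').1).2
      rw [hconst y' hy', e3]
      exact hne
    have h4 : B₂.card ≤ dif F B x x₀ := card_le_card h3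
    have h5 : 2 ^ (ℓ + 3) * dif F B x x₀ ≤ B.card := (mem_filter.1 hx).2
    have h6 : 8 ≤ 2 ^ (ℓ + 3) := by
      rw [pow_add]; have : 1 ≤ 2 ^ ℓ := Nat.one_le_two_pow
      omega
    have h7 := hB.card_pos
    nlinarith

end Pool.Agent.Lib_helper66.LogRank
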