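import Mathlib
import Pool.Agent.Lib_helper66.LogRank.VC

set_option autoImplicit false
set_option linter.unusedSectionVars false

/-! Log-rank for bounded VC dimension: final bounds. -/

namespace Pool.Agent.Lib_helper66.LogRank

open Finset Module
open Pool.Agent.Lib_helper10.LogRank (Protocol)

variable {K : Type*} [Field K] {X Y : Type}

/-- exchange the roles of the players -/
def swapP : Protocol X Y → Protocol Y X
  | .leaf b => .leaf b
  | .alice σ t₀ t₁ => .bob σ (swapP t₀) (swapP t₁)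
  | .bob σ t₀ t₁ => .alice σ (swapP t₀) (swapP t₁)

theorem swapP_cost (π : Protocol X Y) : (swapP π).cost = π.cost := by
  induction π with
  | leaf b => rfl
  | alice σ t₀ t₁ h0 h1 => simp [swapP, Protocol.cost, h0, h1]
  | bob σ t₀ t₁ h0 h1 => simp [swapP, Protocol.cost, h0, h1]

theorem swapP_eval (π : Protocol X Y) (x : X) (y : Y) : (swapP π).eval y x = π.eval x y := by
  induction π with
  | leaf b => rfl
  | alice σ t₀ t₁ h0 h1 => simp [swapP, Protocol.eval, h0, h1]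
  | bob σ t₀ t₁ h0 h1 => simp [swapP, Protocol.eval, h0, h1]

theorem bound_nat [Fintype X] [Fintype Y] (F : X → Y → Bool) (d ℓ : ℕ)
    (hd : ∀ S : Finset Y, RowsShatter F S → S.card ≤ d)
    (hr : rk K F univ univ ≤ 2 ^ ℓ) :
    ∃ π : Protocol X Y, π.cost ≤ 2 + 2 * ℓ * (ℓ + 4 + (3 * ℓ + 8) * d) ∧
      ∀ x y, π.eval x y = F x y := by
  classical
  have hd' : ∀ S : Finset Y, RowsShatter F S → S.card ≤ min d (2 ^ ℓ) := fun S hS =>
    le_min (hd S hS) ((hS.card_le_rk (K := K)).trans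
      ((rk_mono_right F univ (subset_univ S)).trans hr))
  obtain ⟨π, h1, h2⟩ := nw (K := K) F _ ℓ
    (rectDense_of_vc (K := K) F (min d (2 ^ ℓ)) ℓ hd' (min_le_right _ _) hr) hr
  refine ⟨π, h1.trans ?_, h2⟩
  have h3 : (3 * ℓ + 8) * min d (2 ^ ℓ) ≤ (3 * ℓ + 8) * d :=
    Nat.mul_le_mul_left _ (min_le_left _ _)
  calc 2 + ℓ * (2 * (2 + (3 * ℓ + 8) * min d (2 ^ ℓ) + ℓ + 2))
      ≤ 2 + ℓ * (2 * (2 + (3 * ℓ + 8) * d + ℓ + 2)) := by gcongr
    _ = 2 + 2 * ℓ * (ℓ + 4 + (3 * ℓ + 8) * d) := by ring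

theorem bound_real (r d ℓ : ℕ) (hr : 1 ≤ r) (hℓ : ℓ = Nat.clog 2 r) :
    ((2 + 2 * ℓ * (ℓ + 4 + (3 * ℓ + 8) * d) : ℕ) : ℝ) ≤
      22 * (1 + d) * (1 + Real.logb 2 r) ^ 2 := by
  set lam := 1 + Real.logb 2 r with hlam
  have h1 : 1 ≤ lam := by
    have : 0 ≤ Real.logb 2 r := Real.logb_nonneg (by norm_num) (by exact_mod_cast hr)
    linarith
  have h2 : (ℓ : ℝ) ≤ lam := by
    rcases Nat.eq_zero_or_pos ℓ with h0 | hpos
    · rw [h0]; push_cast; linarith
    · have h3 : 2 ^ (ℓ - 1) < r := by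
        rw [hℓ]
        apply Nat.pow_pred_clog_lt_self (by norm_num)
        by_contra hlt
        have : r = 1 := by omega
        rw [hℓ, this] at hpos
        simp at hpos
      have h4 : ((ℓ - 1 : ℕ) : ℝ) ≤ Real.logb 2 r := by
        rw [Real.le_logb_iff_rpow_le (by norm_num) (by exact_mod_cast hr), Real.rpow_natCast]
        exact_mod_cast h3.le
      rw [Nat.cast_sub hpos] at h4
      push_cast at h4
      linarith
  have h0 : (0 : ℝ) ≤ ℓ := Nat.cast_nonneg _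
  have hd0 : (0 : ℝ) ≤ d := Nat.cast_nonneg _
  push_cast
  have e1 : (ℓ : ℝ) * ((ℓ : ℝ) + 4 + (3 * ℓ + 8) * d) ≤ lam * (lam + 4 + (3 * lam + 8) * d) := by
    gcongr
  have e2 : lam + 4 + (3 * lam + 8) * d ≤ 5 * lam + 11 * lam * d := by nlinarith
  have e3 : lam * (lam + 4 + (3 * lam + 8) * d) ≤ lam * (5 * lam + 11 * lam * d) := by
    gcongr
  nlinarith

theorem logRank_vc [Fintype X] [Fintype Y] (F : X → Y → Bool)
    (hne : ∃ x y, F x y = true) (d : ℕ)
    (hd : (∀ S : Finset Y, RowsShatter F S → S.card ≤ d) ∨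
      (∀ S : Finset X, RowsShatter (fun y x => F x y) S → S.card ≤ d)) :
    ∃ π : Protocol X Y, (∀ x y, π.eval x y = F x y) ∧
      (π.cost : ℝ) ≤ 22 * (1 + d) * (1 + Real.logb 2
        ((Matrix.of fun (x : X) (y : Y) => if F x y then (1 : K) else 0).rank : ℝ)) ^ 2 := by
  classical
  rw [← rk_univ]
  set r := rk K F univ univ with hr
  have hr1 : 1 ≤ r := by
    by_contra hlt
    have h0 : rk K F univ univ = 0 := by omega
    obtain ⟨x, y, hxy⟩ := hne
    rw [rk, Submodule.finrank_eq_zero] at h0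
    have h1 : row K F univ x ∈ rowSpace K F univ univ :=
      Submodule.subset_span ⟨x, by simp, rfl⟩
    rw [h0, Submodule.mem_bot] at h1
    have h2 := congrFun h1 ⟨y, mem_univ y⟩
    simp [row, hxy] at h2
  have hpow : r ≤ 2 ^ Nat.clog 2 r := Nat.le_pow_clog (by norm_num) r
  rcases hd with hd | hd
  · obtain ⟨π, h1, h2⟩ := bound_nat (K := K) F d (Nat.clog 2 r) hd hpow
    exact ⟨π, h2, (by exact_mod_cast h1 : (π.cost : ℝ) ≤ _).trans (bound_real r d _ hr1 rfl)⟩
  · obtain ⟨π, h1, h2⟩ := bound_nat (K := K) (fun y x => F x y) d (Nat.clog 2 r) hd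
      (by rw [rk_transpose]; exact hpow)
    refine ⟨swapP π, fun x y => by rw [swapP_eval, h2], ?_⟩
    rw [swapP_cost]
    exact (by exact_mod_cast h1 : (π.cost : ℝ) ≤ _).trans (bound_real r d _ hr1 rfl)

end Pool.Agent.Lib_helper66.LogRank
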